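import Pool.Agent.W_eea520_h59.HalfA

/-!
A Dirichlet series whose logarithmically weighted partial sums are at most `c √x` (helper59).
-/

set_option autoImplicit false

noncomputable section

open MeasureTheory Filter Asymptotics Set
open scoped Topology

namespace Pool.Agent.W_eea520_h59

/-- Partial summation with the weights `1 / log n`. -/
lemma abel (α : ℕ → ℂ) {C : ℝ} (h1 : α 1 = 0) (hC : 0 ≤ C)
    (hT : ∀ n : ℕ, ‖∑ k ∈ Finset.Icc 1 n, LSeries.logMul α k‖ ≤ C * Real.sqrt n) (N : ℕ)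
    (hN : 2 ≤ N) :
    ‖(∑ k ∈ Finset.Icc 1 N, α k) -
      ((Real.log N)⁻¹ : ℝ) * ∑ k ∈ Finset.Icc 1 N, LSeries.logMul α k‖ ≤
      ((Real.log 2)⁻¹ - (Real.log N)⁻¹) * (C * Real.sqrt N) := by
  have hlog : ∀ n : ℕ, 2 ≤ n → 0 < Real.log n := fun n hn =>
    Real.log_pos (by exact_mod_cast (by omega : 1 < n))
  have hb : ∀ n : ℕ, 2 ≤ n → ((Real.log n)⁻¹ : ℝ) * LSeries.logMul α n = α n := by
    intro n hn
    have h2 : ((Real.log n : ℝ) : ℂ) ≠ 0 := by exact_mod_cast (hlog n hn).ne'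
    show ((((Real.log n)⁻¹ : ℝ)) : ℂ) * (Complex.log n * α n) = α n
    rw [← Complex.natCast_log, Complex.ofReal_inv, ← mul_assoc, inv_mul_cancel₀ h2, one_mul]
  induction N, hN using Nat.le_induction with
  | base =>
    have h2 : (∑ k ∈ Finset.Icc 1 2, α k) = α 2 := by
      rw [Finset.sum_Icc_succ_top (by norm_num), Finset.Icc_self, Finset.sum_singleton, h1, zero_add]
    have h3 : (∑ k ∈ Finset.Icc 1 2, LSeries.logMul α k) = LSeries.logMul α 2 := by
      rw [Finset.sum_Icc_succ_top (by norm_num), Finset.Icc_self, Finset.sum_singleton]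
      show Complex.log ((1 : ℕ) : ℂ) * α 1 + _ = _
      rw [h1, mul_zero, zero_add]
    rw [h2, h3]
    have h4 := hb 2 le_rfl
    rw [h4, sub_self, norm_zero]
    simp
  | succ N hN ih =>
    rw [Finset.sum_Icc_succ_top (by omega), Finset.sum_Icc_succ_top (by omega)]
    have h2 := hb (N + 1) (by omega)
    obtain ⟨A, hA⟩ : ∃ A, A = ∑ k ∈ Finset.Icc 1 N, α k := ⟨_, rfl⟩
    obtain ⟨T, hTd⟩ : ∃ T, T = ∑ k ∈ Finset.Icc 1 N, LSeries.logMul α k := ⟨_, rfl⟩
    rw [← hA, ← hTd] at ih ⊢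
    have hTN : ‖T‖ ≤ C * Real.sqrt N := by
      rw [hTd]
      exact hT N
    have e1 : A + α (N + 1) - (((Real.log (N + 1 : ℕ))⁻¹ : ℝ) : ℂ) * (T + LSeries.logMul α (N + 1)) =
        (A - (((Real.log N)⁻¹ : ℝ) : ℂ) * T) +
          (((Real.log N)⁻¹ - (Real.log (N + 1 : ℕ))⁻¹ : ℝ) : ℂ) * T := by
      rw [mul_add, h2]
      push_cast
      ring
    rw [e1]
    have hmono : (Real.log (N + 1 : ℕ))⁻¹ ≤ (Real.log N)⁻¹ := by
      refine inv_anti₀ (hlog N hN) (Real.log_le_log ?_ ?_)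
      · exact_mod_cast (by omega : 0 < N)
      · push_cast
        linarith
    have hmono2 : (Real.log (N + 1 : ℕ))⁻¹ ≤ (Real.log 2)⁻¹ := by
      refine inv_anti₀ (Real.log_pos one_lt_two) (Real.log_le_log two_pos ?_)
      exact_mod_cast (by omega : 2 ≤ N + 1)
    have hs : Real.sqrt N ≤ Real.sqrt (N + 1 : ℕ) := Real.sqrt_le_sqrt (by push_cast; linarith)
    calc ‖(A - (((Real.log N)⁻¹ : ℝ) : ℂ) * T) +
          (((Real.log N)⁻¹ - (Real.log (N + 1 : ℕ))⁻¹ : ℝ) : ℂ) * T‖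
        ≤ ((Real.log 2)⁻¹ - (Real.log N)⁻¹) * (C * Real.sqrt N) +
          ((Real.log N)⁻¹ - (Real.log (N + 1 : ℕ))⁻¹) * (C * Real.sqrt N) := by
          refine (norm_add_le _ _).trans (add_le_add ih ?_)
          rw [norm_mul, Complex.norm_real, Real.norm_of_nonneg (by linarith)]
          exact mul_le_mul_of_nonneg_left hTN (by linarith)
      _ = ((Real.log 2)⁻¹ - (Real.log (N + 1 : ℕ))⁻¹) * (C * Real.sqrt N) := by ring
      _ ≤ ((Real.log 2)⁻¹ - (Real.log (N + 1 : ℕ))⁻¹) * (C * Real.sqrt (N + 1 : ℕ)) :=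
          mul_le_mul_of_nonneg_left (mul_le_mul_of_nonneg_left hs hC) (by linarith)

/-- A bound at all integers from a bound at the large ones. -/
lemma all_of_ev {u : ℕ → ℝ} {c : ℝ} (h0 : ∀ n, 0 ≤ u n)
    (h : ∀ᶠ N : ℕ in atTop, u N ≤ c * Real.sqrt N) :
    ∃ D : ℝ, 0 ≤ D ∧ ∀ N : ℕ, u N ≤ c * Real.sqrt N + D := by
  obtain ⟨N0, h1⟩ := eventually_atTop.1 h
  refine ⟨∑ n ∈ Finset.range N0, (u n + |c| * Real.sqrt n), ?_, fun N => ?_⟩
  · exact Finset.sum_nonneg fun n _ => add_nonneg (h0 n) (by positivity)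
  · rcases le_or_gt N0 N with h2 | h2
    · have h3 : 0 ≤ ∑ n ∈ Finset.range N0, (u n + |c| * Real.sqrt n) :=
        Finset.sum_nonneg fun n _ => add_nonneg (h0 n) (by positivity)
      linarith [h1 N h2]
    · have h3 : u N + |c| * Real.sqrt N ≤ ∑ n ∈ Finset.range N0, (u n + |c| * Real.sqrt n) :=
        Finset.single_le_sum (f := fun n => u n + |c| * Real.sqrt n)
          (fun n _ => add_nonneg (h0 n) (by positivity)) (Finset.mem_range.2 h2)
      have h4 : -(|c| * Real.sqrt N) ≤ c * Real.sqrt N := by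
        have := mul_le_mul_of_nonneg_right (neg_abs_le c) (Real.sqrt_nonneg N)
        linarith
      linarith

/-- The bound of the integral. -/
lemma mellin_bd (b : ℕ → ℂ) {c D : ℝ} (hc : 0 ≤ c) (hD : 0 ≤ D)
    (hT : ∀ n : ℕ, ‖∑ k ∈ Finset.Icc 1 n, b k‖ ≤ c * Real.sqrt n + D) {x : ℝ} (hx : 1 / 2 < x)
    (hx1 : x ≤ 1) :
    ‖(x : ℂ) * mellin (pS b) (-(x : ℂ))‖ ≤ c / 2 * (1 / (x - 1 / 2)) + (c + D) := by
  have hx0 : 0 < x := by linarith
  rw [mellin_pS, norm_mul, Complex.norm_real, Real.norm_of_nonneg hx0.le]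
  have hi1 : IntegrableOn (fun t : ℝ => c * t ^ (-(x + 1 / 2))) (Ioi 1) :=
    (integrableOn_Ioi_rpow_of_lt (by linarith) one_pos).const_mul c
  have hi2 : IntegrableOn (fun t : ℝ => D * t ^ (-(x + 1))) (Ioi 1) :=
    (integrableOn_Ioi_rpow_of_lt (by linarith) one_pos).const_mul D
  have h1 : ‖∫ t in Ioi (1 : ℝ), (∑ k ∈ Finset.Icc 1 ⌊t⌋₊, b k) * (t : ℂ) ^ (-((x : ℂ) + 1))‖ ≤
      ∫ t in Ioi (1 : ℝ), (c * t ^ (-(x + 1 / 2)) + D * t ^ (-(x + 1))) := by
    refine norm_integral_le_of_norm_le (hi1.add hi2) ?_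
    refine (ae_restrict_iff' measurableSet_Ioi).2 (Eventually.of_forall fun t (ht : 1 < t) => ?_)
    have ht0 : 0 < t := by linarith
    rw [norm_mul, Complex.norm_cpow_eq_rpow_re_of_pos ht0]
    have e1 : (-((x : ℂ) + 1)).re = -(x + 1) := by simp
    rw [e1]
    have h2 : ‖∑ k ∈ Finset.Icc 1 ⌊t⌋₊, b k‖ ≤ c * t ^ (1 / 2 : ℝ) + D := by
      refine (hT _).trans ?_
      rw [← Real.sqrt_eq_rpow]
      have h3 : Real.sqrt ((⌊t⌋₊ : ℕ) : ℝ) ≤ Real.sqrt t := Real.sqrt_le_sqrt (Nat.floor_le ht0.le)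
      linarith [mul_le_mul_of_nonneg_left h3 hc]
    refine (mul_le_mul_of_nonneg_right h2 (Real.rpow_nonneg ht0.le _)).trans (le_of_eq ?_)
    rw [add_mul, mul_assoc, ← Real.rpow_add ht0]
    congr 3
    ring
  have h2 : ∫ t in Ioi (1 : ℝ), (c * t ^ (-(x + 1 / 2)) + D * t ^ (-(x + 1))) =
      c / (x - 1 / 2) + D / x := by
    rw [integral_add hi1 hi2, integral_const_mul, integral_const_mul,
      integral_Ioi_rpow_of_lt (by linarith) one_pos, integral_Ioi_rpow_of_lt (by linarith) one_pos]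
    have h3 : x - 1 / 2 ≠ 0 := by linarith
    have h4 : -(x + 1 / 2) + 1 ≠ 0 := by linarith
    have h5 : -(x + 1) + 1 ≠ 0 := by linarith
    rw [Real.one_rpow, Real.one_rpow]
    have h6 : (-(x + 1 / 2) + 1 : ℝ) = -(x - 1 / 2) := by ring
    have h7 : (-(x + 1) + 1 : ℝ) = -x := by ring
    rw [h6, h7, neg_div_neg_eq, neg_div_neg_eq]
    ring
  rw [h2] at h1
  have h3 : 0 < x - 1 / 2 := by linarith
  calc x * ‖∫ t in Ioi (1 : ℝ), (∑ k ∈ Finset.Icc 1 ⌊t⌋₊, b k) * (t : ℂ) ^ (-((x : ℂ) + 1))‖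
      ≤ x * (c / (x - 1 / 2) + D / x) := mul_le_mul_of_nonneg_left h1 hx0.le
    _ = c / 2 * (1 / (x - 1 / 2)) + (c + D) := by
        have h4 : x * (c / (x - 1 / 2)) =
            c * ((x - 1 / 2) / (x - 1 / 2)) + c / 2 * (1 / (x - 1 / 2)) := by ring
        rw [mul_add, mul_div_cancel₀ _ hx0.ne', h4, div_self h3.ne']
        ring

/-- The holomorphic extension and its size on the real axis. -/
theorem haN (α : ℕ → ℂ) {B c : ℝ} (hB : ∀ n, ‖α n‖ ≤ B) (h1 : α 1 = 0) (hc : 0 ≤ c)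
    (hS : ∀ᶠ N : ℕ in atTop, ‖∑ k ∈ Finset.Icc 1 N, LSeries.logMul α k‖ ≤ c * Real.sqrt N) :
    ∃ F : ℂ → ℂ, DifferentiableOn ℂ F {s | 1 / 2 < s.re} ∧
      (∀ s : ℂ, 1 < s.re → F s = LSeries α s) ∧
      ∃ K : ℝ, ∀ x : ℝ, 1 / 2 < x → x ≤ 1 →
        ‖F x‖ ≤ c / 2 * Real.log (1 / (x - 1 / 2)) + K := by
  obtain ⟨D, hD, hT⟩ := all_of_ev (u := fun N => ‖∑ k ∈ Finset.Icc 1 N, LSeries.logMul α k‖)
    (fun n => norm_nonneg _) hS
  -- a bound without constant term
  have hT2 : ∀ n : ℕ, ‖∑ k ∈ Finset.Icc 1 n, LSeries.logMul α k‖ ≤ (c + D) * Real.sqrt n := by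
    intro n
    rcases Nat.eq_zero_or_pos n with h | h
    · subst h
      simp
    · have h2 : 1 ≤ Real.sqrt n := by
        rw [Real.one_le_sqrt]
        exact_mod_cast h
      have h3 : D * 1 ≤ D * Real.sqrt n := mul_le_mul_of_nonneg_left h2 hD
      have h4 := hT n
      have h5 : c * Real.sqrt n + D ≤ (c + D) * Real.sqrt n := by linarith
      exact h4.trans h5
  have hAO : (fun n : ℕ => ∑ k ∈ Finset.Icc 1 n, α k) =O[atTop] fun n : ℕ => (n : ℝ) ^ (1 / 2 : ℝ) := by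
    refine IsBigO.of_bound ((Real.log 2)⁻¹ * (c + D)) ?_
    filter_upwards [eventually_ge_atTop 2] with N hN
    have h2 := abel α h1 (add_nonneg hc hD) hT2 N hN
    have h3 := hT2 N
    have hl : 0 < Real.log N := Real.log_pos (by exact_mod_cast (by omega : 1 < N))
    have h4 : ‖(((Real.log N)⁻¹ : ℝ) : ℂ) * ∑ k ∈ Finset.Icc 1 N, LSeries.logMul α k‖ ≤
        (Real.log N)⁻¹ * ((c + D) * Real.sqrt N) := by
      rw [norm_mul, Complex.norm_real, Real.norm_of_nonneg (inv_nonneg.2 hl.le)]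
      exact mul_le_mul_of_nonneg_left h3 (inv_nonneg.2 hl.le)
    have h5 : ‖∑ k ∈ Finset.Icc 1 N, α k‖ ≤
        ‖(∑ k ∈ Finset.Icc 1 N, α k) -
          (((Real.log N)⁻¹ : ℝ) : ℂ) * ∑ k ∈ Finset.Icc 1 N, LSeries.logMul α k‖ +
        ‖(((Real.log N)⁻¹ : ℝ) : ℂ) * ∑ k ∈ Finset.Icc 1 N, LSeries.logMul α k‖ := by
      have := norm_add_le ((∑ k ∈ Finset.Icc 1 N, α k) -
          (((Real.log N)⁻¹ : ℝ) : ℂ) * ∑ k ∈ Finset.Icc 1 N, LSeries.logMul α k)
        ((((Real.log N)⁻¹ : ℝ) : ℂ) * ∑ k ∈ Finset.Icc 1 N, LSeries.logMul α k)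
      rwa [sub_add_cancel] at this
    rw [Real.norm_of_nonneg (by positivity), ← Real.sqrt_eq_rpow]
    calc ‖∑ k ∈ Finset.Icc 1 N, α k‖
        ≤ ((Real.log 2)⁻¹ - (Real.log N)⁻¹) * ((c + D) * Real.sqrt N) +
          (Real.log N)⁻¹ * ((c + D) * Real.sqrt N) := by linarith
      _ = (Real.log 2)⁻¹ * (c + D) * Real.sqrt N := by ring
  have hbO : (fun n : ℕ => ∑ k ∈ Finset.Icc 1 n, LSeries.logMul α k) =O[atTop]
      fun n : ℕ => (n : ℝ) ^ (1 / 2 : ℝ) := by
    refine IsBigO.of_bound (c + D) (Eventually.of_forall fun N => ?_)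
    rw [Real.norm_of_nonneg (by positivity), ← Real.sqrt_eq_rpow]
    exact hT2 N
  obtain ⟨F, hF1, hF2⟩ := halfA α (by norm_num) hAO
  have hab : LSeries.abscissaOfAbsConv α ≤ 1 :=
    LSeries.abscissaOfAbsConv_le_of_le_const ⟨B, fun n _ => hB n⟩
  have hsum : ∀ s : ℂ, 1 < s.re → LSeriesSummable α s := fun s hs =>
    LSeriesSummable_of_abscissaOfAbsConv_lt_re (lt_of_le_of_lt hab (by exact_mod_cast hs))
  have hG : DifferentiableOn ℂ (fun s : ℂ => s * mellin (pS (LSeries.logMul α)) (-s))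
      {s | 1 / 2 < s.re} := by
    intro s hs
    have h2 : DifferentiableAt ℂ (mellin (pS (LSeries.logMul α))) (-s) :=
      mellin_differentiableAt_of_isBigO_rpow (a := -(1 / 2)) (b := (-s).re - 1) (pS_loc _)
        (pS_top _ (by norm_num) hbO) (by rw [Complex.neg_re]; exact neg_lt_neg hs)
        (pS_bot _ _) (by linarith)
    have h3 : DifferentiableAt ℂ (fun s : ℂ => mellin (pS (LSeries.logMul α)) (-s)) s :=
      h2.comp s differentiableAt_id.neg
    exact (differentiableAt_id.mul h3).differentiableWithinAt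
  have hopen : IsOpen {s : ℂ | 1 / 2 < s.re} := isOpen_lt continuous_const Complex.continuous_re
  have hconv : Convex ℝ {s : ℂ | 1 / 2 < s.re} := convex_halfSpace_re_gt _
  -- the derivative
  have hder : ∀ s : ℂ, 1 / 2 < s.re →
      deriv F s = -(s * mellin (pS (LSeries.logMul α)) (-s)) := by
    have a1 : AnalyticOnNhd ℂ (deriv F) {s | 1 / 2 < s.re} :=
      (hF1.analyticOnNhd hopen).deriv
    have a2 : AnalyticOnNhd ℂ (fun s : ℂ => -(s * mellin (pS (LSeries.logMul α)) (-s)))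
        {s | 1 / 2 < s.re} := (hG.neg).analyticOnNhd hopen
    have a3 : (deriv F) =ᶠ[𝓝 (2 : ℂ)]
        fun s : ℂ => -(s * mellin (pS (LSeries.logMul α)) (-s)) := by
      have o1 : ∀ᶠ s : ℂ in 𝓝 (2 : ℂ), 1 < s.re :=
        (isOpen_lt continuous_const Complex.continuous_re).mem_nhds (by simp)
      filter_upwards [o1] with s hs
      have b1 : F =ᶠ[𝓝 s] LSeries α := by
        have o2 : ∀ᶠ z : ℂ in 𝓝 s, 1 < z.re :=
          (isOpen_lt continuous_const Complex.continuous_re).mem_nhds hs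
        filter_upwards [o2] with z hz
        exact hF2 z (by linarith) (hsum z hz)
      rw [b1.deriv_eq, LSeries_deriv (lt_of_le_of_lt hab (by exact_mod_cast hs))]
      have b2 : LSeriesSummable (LSeries.logMul α) s :=
        LSeriesSummable_logMul_of_lt_re (lt_of_le_of_lt hab (by exact_mod_cast hs))
      rw [LSeries_eq_mul_integral (LSeries.logMul α) (r := 1 / 2) (by norm_num) (by linarith) b2 hbO,
        mellin_pS]
    exact fun s hs => a1.eqOn_of_preconnected_of_eventuallyEq a2 hconv.isPreconnected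
      (show (1 / 2 : ℝ) < (2 : ℂ).re by norm_num) a3 hs
  refine ⟨F, hF1, fun s hs => hF2 s (by linarith) (hsum s hs),
    ‖F 1‖ + (c + D), fun x hx hx1 => ?_⟩
  -- integration of the bound of the derivative
  have hd : ∀ y ∈ uIcc x 1, HasDerivAt (fun y : ℝ => F y)
      (-((y : ℂ) * mellin (pS (LSeries.logMul α)) (-(y : ℂ)))) y := by
    intro y hy
    rw [uIcc_of_le hx1] at hy
    have hy2 : 1 / 2 < ((y : ℂ)).re := by
      rw [Complex.ofReal_re]
      exact lt_of_lt_of_le hx hy.1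
    have h3 : HasDerivAt F (deriv F y) (y : ℂ) :=
      ((hF1 _ hy2).differentiableAt (hopen.mem_nhds hy2)).hasDerivAt
    rw [hder _ hy2] at h3
    exact h3.comp_ofReal
  have hcont : ContinuousOn (fun y : ℝ => -((y : ℂ) * mellin (pS (LSeries.logMul α)) (-(y : ℂ))))
      (uIcc x 1) := by
    have h3 : ContinuousOn (fun s : ℂ => -(s * mellin (pS (LSeries.logMul α)) (-s)))
        {s : ℂ | 1 / 2 < s.re} := hG.continuousOn.neg
    refine h3.comp Complex.continuous_ofReal.continuousOn fun y hy => ?_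
    rw [uIcc_of_le hx1] at hy
    show 1 / 2 < ((y : ℂ)).re
    rw [Complex.ofReal_re]
    exact lt_of_lt_of_le hx hy.1
  have hint := intervalIntegral.integral_eq_sub_of_hasDerivAt hd hcont.intervalIntegrable
  have hi3 : IntervalIntegrable (fun y : ℝ => c / 2 * (1 / (y - 1 / 2)) + (c + D)) volume x 1 := by
    refine ContinuousOn.intervalIntegrable ?_
    refine ContinuousOn.add (ContinuousOn.mul continuousOn_const
      (ContinuousOn.div continuousOn_const (continuousOn_id.sub continuousOn_const) ?_))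
      continuousOn_const
    intro y hy
    rw [uIcc_of_le hx1] at hy
    have : x ≤ y := hy.1
    show y - 1 / 2 ≠ 0
    linarith
  have h3 : ‖∫ y in x..1, -((y : ℂ) * mellin (pS (LSeries.logMul α)) (-(y : ℂ)))‖ ≤
      ∫ y in x..1, (c / 2 * (1 / (y - 1 / 2)) + (c + D)) := by
    refine intervalIntegral.norm_integral_le_of_norm_le hx1 ?_ hi3
    refine Eventually.of_forall fun y hy => ?_
    rw [norm_neg]
    exact mellin_bd (LSeries.logMul α) hc hD hT (lt_of_lt_of_le hx hy.1.le) hy.2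
  have h4 : ∫ y in x..1, (c / 2 * (1 / (y - 1 / 2)) + (c + D)) =
      (c / 2 * Real.log (1 - 1 / 2) + (c + D) * 1) - (c / 2 * Real.log (x - 1 / 2) + (c + D) * x) := by
    refine intervalIntegral.integral_eq_sub_of_hasDerivAt
      (f := fun y : ℝ => c / 2 * Real.log (y - 1 / 2) + (c + D) * y) (fun y hy => ?_) hi3
    rw [uIcc_of_le hx1] at hy
    have hy0 : y - 1 / 2 ≠ 0 := by
      have : x ≤ y := hy.1
      linarith
    have e1 : HasDerivAt (fun y : ℝ => y - 1 / 2) 1 y := (hasDerivAt_id y).sub_const _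
    have e2 := ((e1.log hy0).const_mul (c / 2)).fun_add ((hasDerivAt_id' y).const_mul (c + D))
    rw [mul_one] at e2
    exact e2
  have h5 : F x = F 1 - ∫ y in x..1, -((y : ℂ) * mellin (pS (LSeries.logMul α)) (-(y : ℂ))) := by
    rw [hint]
    push_cast
    ring
  rw [h5]
  refine (norm_sub_le _ _).trans ?_
  rw [h4] at h3
  have h6 : Real.log (1 - 1 / 2) ≤ 0 := Real.log_nonpos (by norm_num) (by norm_num)
  have h7 : Real.log (1 / (x - 1 / 2)) = -Real.log (x - 1 / 2) := by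
    rw [one_div, Real.log_inv]
  rw [h7]
  have h8 : c / 2 * Real.log (1 - 1 / 2) ≤ 0 := mul_nonpos_of_nonneg_of_nonpos (by linarith) h6
  have h9 : 0 ≤ (c + D) * x := mul_nonneg (add_nonneg hc hD) (by linarith)
  linarith

end Pool.Agent.W_eea520_h59
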