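import Mathlib

/-!
Partial sums `O(n ^ r)` give a holomorphic extension of a Dirichlet series to `re s > r` (helper59).
-/

set_option autoImplicit false

noncomputable section

open MeasureTheory Filter Asymptotics Set
open scoped Topology

namespace Pool.Agent.W_eea520_h59

/-- The partial sums. -/
def pS (a : ℕ → ℂ) (t : ℝ) : ℂ := ∑ k ∈ Finset.Icc 1 ⌊t⌋₊, a k

lemma pS_lt (a : ℕ → ℂ) {t : ℝ} (ht : t < 1) : pS a t = 0 := by
  unfold pS
  rw [Nat.floor_eq_zero.2 ht]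
  rfl

lemma pS_meas (a : ℕ → ℂ) : Measurable (pS a) :=
  (measurable_from_nat (f := fun n => ∑ k ∈ Finset.Icc 1 n, a k)).comp Nat.measurable_floor

lemma pS_loc (a : ℕ → ℂ) : LocallyIntegrableOn (pS a) (Ioi 0) := by
  have h := locallyIntegrableOn_mul_sum_Icc (𝕜 := ℂ) a (m := 1) (a := 0) le_rfl
    (g := fun _ : ℝ => (1 : ℂ)) ((locallyIntegrable_const (1 : ℂ)).locallyIntegrableOn _)
  have h2 : (fun t : ℝ => (1 : ℂ) * ∑ k ∈ Finset.Icc 1 ⌊t⌋₊, a k) = pS a := by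
    funext t
    rw [one_mul]
    rfl
  rw [h2] at h
  exact h.mono_set Ioi_subset_Ici_self

lemma pS_top (a : ℕ → ℂ) {r : ℝ} (hr : 0 ≤ r)
    (hO : (fun n : ℕ => ∑ k ∈ Finset.Icc 1 n, a k) =O[atTop] fun n => (n : ℝ) ^ r) :
    pS a =O[atTop] fun t : ℝ => t ^ (-(-r)) := by
  have h1 : (fun t : ℝ => ∑ k ∈ Finset.Icc 1 ⌊t⌋₊, a k) =O[atTop] fun t : ℝ => ((⌊t⌋₊ : ℕ) : ℝ) ^ r :=
    hO.comp_tendsto tendsto_nat_floor_atTop
  refine h1.trans ?_
  rw [neg_neg]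
  refine IsBigO.of_bound 1 ?_
  filter_upwards [eventually_ge_atTop (0 : ℝ)] with t ht
  rw [one_mul, Real.norm_of_nonneg (by positivity), Real.norm_of_nonneg (by positivity)]
  exact Real.rpow_le_rpow (by positivity) (Nat.floor_le ht) hr

lemma pS_bot (a : ℕ → ℂ) (b : ℝ) : pS a =O[𝓝[>] 0] fun t : ℝ => t ^ (-b) := by
  refine EventuallyEq.trans_isBigO (f₂ := fun _ => (0 : ℂ)) ?_ (isBigO_zero _ _)
  have h : ∀ᶠ t : ℝ in 𝓝[>] 0, t < 1 :=
    (eventually_lt_nhds one_pos).filter_mono nhdsWithin_le_nhds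
  filter_upwards [h] with t ht
  exact pS_lt a ht

lemma mellin_pS (a : ℕ → ℂ) (s : ℂ) :
    mellin (pS a) (-s) = ∫ t in Ioi (1 : ℝ), (∑ k ∈ Finset.Icc 1 ⌊t⌋₊, a k) * t ^ (-(s + 1)) := by
  unfold mellin
  have h1 : ∫ t in Ioi (0 : ℝ), (t : ℂ) ^ (-s - 1) • pS a t =
      ∫ t in Ici (1 : ℝ), (t : ℂ) ^ (-s - 1) • pS a t := by
    refine (setIntegral_eq_of_subset_of_forall_sdiff_eq_zero measurableSet_Ioi
      (fun t (ht : 1 ≤ t) => lt_of_lt_of_le one_pos ht) fun t ht => ?_)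
    have h2 : t < 1 := not_le.1 ht.2
    rw [pS_lt a h2, smul_zero]
  rw [h1, integral_Ici_eq_integral_Ioi]
  refine setIntegral_congr_fun measurableSet_Ioi fun t _ => ?_
  show (t : ℂ) ^ (-s - 1) * pS a t = pS a t * (t : ℂ) ^ (-(s + 1))
  rw [mul_comm]
  congr 2
  ring

/-- The holomorphic extension. -/
theorem halfA (a : ℕ → ℂ) {r : ℝ} (hr : 0 ≤ r)
    (hO : (fun n : ℕ => ∑ k ∈ Finset.Icc 1 n, a k) =O[atTop] fun n => (n : ℝ) ^ r) :
    ∃ F : ℂ → ℂ, DifferentiableOn ℂ F {s | r < s.re} ∧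
      ∀ s : ℂ, r < s.re → LSeriesSummable a s → F s = LSeries a s := by
  refine ⟨fun s => s * mellin (pS a) (-s), fun s (hs : r < s.re) => ?_, fun s hs hS => ?_⟩
  · have h1 : DifferentiableAt ℂ (mellin (pS a)) (-s) :=
      mellin_differentiableAt_of_isBigO_rpow (a := -r) (b := (-s).re - 1) (pS_loc a)
        (pS_top a hr hO) (by rw [Complex.neg_re]; linarith) (pS_bot a _) (by linarith)
    have h2 : DifferentiableAt ℂ (fun s : ℂ => mellin (pS a) (-s)) s :=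
      h1.comp s differentiableAt_id.neg
    exact (differentiableAt_id.mul h2).differentiableWithinAt
  · show s * mellin (pS a) (-s) = LSeries a s
    rw [mellin_pS, LSeries_eq_mul_integral a hr hs hS hO]

end Pool.Agent.W_eea520_h59
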